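import Mathlib
import Pool.Agent.H358R5.Gaps

/-!
# Prime quadruples in intervals of length 4209616

At least `x ^ (1 - ε)` of the primes `p_k ≤ x` satisfy `p_{k+3} ≤ p_k + 4209616`, and there are fixed shifts
`0 < a < b < c ≤ 4209616` such that `n`, `n + a`, `n + b`, `n + c` are four consecutive primes infinitely often.
The sieve theorem and the admissible set of 290687 integers are those of the development
`Pool.Agent.H358R5` of the starting files (`gaps4`, not handed in there).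
-/

set_option autoImplicit false

namespace Pool.Agent.Results.MP_3efbeb_nt.QuadruplesInBoundedIntervals

open Filter

/-- `n`, `n + a`, `n + b`, `n + c` are primes, and there is no other prime from `n` to `n + c`. -/
def FourConsecutive (a b c n : ℕ) : Prop :=
  n.Prime ∧ (n + a).Prime ∧ (n + b).Prime ∧ (n + c).Prime ∧
    ∀ p : ℕ, p.Prime → n ≤ p → p ≤ n + c → p = n ∨ p = n + a ∨ p = n + b ∨ p = n + c

/-- from some object for all large `x` to one object for arbitrarily large `x` and all `η` -/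
theorem one_object {P : Type} [Fintype P] (Q : P → ℝ → ℝ → Prop)
    (hmono : ∀ p η η' x, 1 ≤ x → η ≤ η' → Q p η x → Q p η' x)
    (h : ∀ η : ℝ, 0 < η → ∀ᶠ x : ℝ in atTop, ∃ p, Q p η x) :
    ∃ p, ∀ η : ℝ, 0 < η → ∃ᶠ x : ℝ in atTop, Q p η x := by
  classical
  by_contra hcon
  push Not at hcon
  choose η hη hη2 using hcon
  have hne : Nonempty P := by
    obtain ⟨x, p, _⟩ := (h 1 one_pos).exists
    exact ⟨p⟩
  obtain ⟨p₀, -, hp₀⟩ := Finset.exists_min_image (Finset.univ : Finset P) η Finset.univ_nonempty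
  have h1 := h (η p₀) (hη p₀)
  have h2 : ∀ᶠ x : ℝ in atTop, ∀ p, ¬ Q p (η p) x := eventually_all.2 hη2
  obtain ⟨x, ⟨⟨p, hp⟩, hx2⟩, hx3⟩ := ((h1.and h2).and (eventually_ge_atTop (1 : ℝ))).exists
  exact hx2 p (hmono p (η p₀) (η p) x hx3 (hp₀ p (Finset.mem_univ _)) hp)

/-- the pattern of four consecutive primes starting with the prime of index `k` -/
theorem four_of_index (k : ℕ) :
    FourConsecutive (Nat.nth Nat.Prime (k + 1) - Nat.nth Nat.Prime k)
      (Nat.nth Nat.Prime (k + 2) - Nat.nth Nat.Prime k)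
      (Nat.nth Nat.Prime (k + 3) - Nat.nth Nat.Prime k) (Nat.nth Nat.Prime k) := by
  have hm := Nat.nth_strictMono Nat.infinite_setOfPred_prime
  have h1 : Nat.nth Nat.Prime k < Nat.nth Nat.Prime (k + 1) := hm (by omega)
  have h2 : Nat.nth Nat.Prime (k + 1) < Nat.nth Nat.Prime (k + 2) := hm (by omega)
  have h3 : Nat.nth Nat.Prime (k + 2) < Nat.nth Nat.Prime (k + 3) := hm (by omega)
  have e1 : Nat.nth Nat.Prime k + (Nat.nth Nat.Prime (k + 1) - Nat.nth Nat.Prime k) =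
      Nat.nth Nat.Prime (k + 1) := by omega
  have e2 : Nat.nth Nat.Prime k + (Nat.nth Nat.Prime (k + 2) - Nat.nth Nat.Prime k) =
      Nat.nth Nat.Prime (k + 2) := by omega
  have e3 : Nat.nth Nat.Prime k + (Nat.nth Nat.Prime (k + 3) - Nat.nth Nat.Prime k) =
      Nat.nth Nat.Prime (k + 3) := by omega
  refine ⟨Nat.prime_nth_prime k, ?_, ?_, ?_, ?_⟩
  · rw [e1]; exact Nat.prime_nth_prime _
  · rw [e2]; exact Nat.prime_nth_prime _
  · rw [e3]; exact Nat.prime_nth_prime _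
  · intro p hp hkp hpk
    rw [e3] at hpk
    rw [e1, e2, e3]
    obtain ⟨j, hj⟩ : ∃ j, Nat.nth Nat.Prime j = p := ⟨Nat.count Nat.Prime p, Nat.nth_count hp⟩
    subst hj
    have hkj : k ≤ j := hm.le_iff_le.1 hkp
    have hjk : j ≤ k + 3 := hm.le_iff_le.1 hpk
    have : j = k ∨ j = k + 1 ∨ j = k + 2 ∨ j = k + 3 := by omega
    rcases this with rfl | rfl | rfl | rfl
    · exact Or.inl rfl
    · exact Or.inr (Or.inl rfl)
    · exact Or.inr (Or.inr (Or.inl rfl))
    · exact Or.inr (Or.inr (Or.inr rfl))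

/-- the patterns -/
abbrev Pat (N : ℕ) : Type :=
  {t : Fin (N + 1) × Fin (N + 1) × Fin (N + 1) // 0 < t.1.val ∧ t.1 < t.2.1 ∧ t.2.1 < t.2.2}

theorem count_patterns (N : ℕ) (x : ℝ) :
    ((Set.ncard {k : ℕ | (Nat.nth Nat.Prime k : ℝ) ≤ x ∧
      Nat.nth Nat.Prime (k + 3) ≤ Nat.nth Nat.Prime k + N} : ℕ)) ≤
    ∑ t : Pat N, Set.ncard {n : ℕ | (n : ℝ) ≤ x ∧
      FourConsecutive t.1.1 t.1.2.1 t.1.2.2 n} := by
  classical
  have hm := Nat.nth_strictMono Nat.infinite_setOfPred_prime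
  have hfinN : ∀ t : Pat N, {n : ℕ | (n : ℝ) ≤ x ∧
      FourConsecutive t.1.1 t.1.2.1 t.1.2.2 n}.Finite := fun t =>
    (Set.finite_Iic ⌊x⌋₊).subset fun n hn => Nat.le_floor hn.1
  let T : Pat N → Set ℕ := fun t => {k : ℕ | (Nat.nth Nat.Prime k : ℝ) ≤ x ∧
      FourConsecutive t.1.1 t.1.2.1 t.1.2.2 (Nat.nth Nat.Prime k)}
  have hTfin : ∀ t, (T t).Finite := fun t => by
    refine Set.Finite.of_finite_image (f := Nat.nth Nat.Prime) ((hfinN t).subset ?_)
      hm.injective.injOn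
    rintro _ ⟨k, hk, rfl⟩
    exact hk
  have hTc : ∀ t, (T t).ncard ≤ Set.ncard {n : ℕ | (n : ℝ) ≤ x ∧
      FourConsecutive t.1.1 t.1.2.1 t.1.2.2 n} := fun t => by
    rw [← Set.ncard_image_of_injective (T t) hm.injective]
    refine Set.ncard_le_ncard ?_ (hfinN t)
    rintro _ ⟨k, hk, rfl⟩
    exact hk
  have hsub : {k : ℕ | (Nat.nth Nat.Prime k : ℝ) ≤ x ∧
      Nat.nth Nat.Prime (k + 3) ≤ Nat.nth Nat.Prime k + N} ⊆
      ((Finset.univ : Finset (Pat N)).biUnion fun t => (hTfin t).toFinset : Finset ℕ) := by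
    rintro k ⟨hk1, hk2⟩
    have h1 : Nat.nth Nat.Prime k < Nat.nth Nat.Prime (k + 1) := hm (by omega)
    have h2 : Nat.nth Nat.Prime (k + 1) < Nat.nth Nat.Prime (k + 2) := hm (by omega)
    have h3 : Nat.nth Nat.Prime (k + 2) < Nat.nth Nat.Prime (k + 3) := hm (by omega)
    have hf := four_of_index k
    let t : Pat N := ⟨(⟨Nat.nth Nat.Prime (k + 1) - Nat.nth Nat.Prime k, by omega⟩,
      ⟨Nat.nth Nat.Prime (k + 2) - Nat.nth Nat.Prime k, by omega⟩,
      ⟨Nat.nth Nat.Prime (k + 3) - Nat.nth Nat.Prime k, by omega⟩), by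
        refine ⟨?_, ?_, ?_⟩
        · show 0 < Nat.nth Nat.Prime (k + 1) - Nat.nth Nat.Prime k
          omega
        · show Nat.nth Nat.Prime (k + 1) - Nat.nth Nat.Prime k <
            Nat.nth Nat.Prime (k + 2) - Nat.nth Nat.Prime k
          omega
        · show Nat.nth Nat.Prime (k + 2) - Nat.nth Nat.Prime k <
            Nat.nth Nat.Prime (k + 3) - Nat.nth Nat.Prime k
          omega⟩
    simp only [Finset.coe_biUnion, Finset.coe_univ, Set.mem_univ, Set.Finite.coe_toFinset,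
      Set.iUnion_true, Set.mem_iUnion]
    exact ⟨t, hk1, hf⟩
  calc _ ≤ ((Finset.univ : Finset (Pat N)).biUnion fun t => (hTfin t).toFinset).card := by
        rw [← Set.ncard_coe_finset]
        exact Set.ncard_le_ncard hsub (Finset.finite_toSet _)
    _ ≤ ∑ t : Pat N, ((hTfin t).toFinset).card := Finset.card_biUnion_le
    _ ≤ _ := Finset.sum_le_sum fun t _ => by
        rw [← Set.ncard_eq_toFinset_card _ (hTfin t)]
        exact hTc t

/-- from many indices to one pattern -/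
theorem one_pattern (N : ℕ)
    (h : ∀ ε : ℝ, 0 < ε → ∀ᶠ x : ℝ in atTop, x ^ (1 - ε) ≤ (Set.ncard {k : ℕ |
      (Nat.nth Nat.Prime k : ℝ) ≤ x ∧
      Nat.nth Nat.Prime (k + 3) ≤ Nat.nth Nat.Prime k + N} : ℝ)) :
    ∃ a b c : ℕ, 0 < a ∧ a < b ∧ b < c ∧ c ≤ N ∧ ∀ ε : ℝ, 0 < ε → ∃ᶠ x : ℝ in atTop,
      x ^ (1 - ε) ≤ (Set.ncard {n : ℕ | (n : ℝ) ≤ x ∧ FourConsecutive a b c n} : ℝ) := by
  classical
  obtain ⟨t, ht⟩ := one_object (P := Pat N)
    (fun t ε x => x ^ (1 - ε) ≤ (Set.ncard {n : ℕ | (n : ℝ) ≤ x ∧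
      FourConsecutive t.1.1 t.1.2.1 t.1.2.2 n} : ℝ))
    (by
      intro t ε ε' x hx hεε' hle
      exact (Real.rpow_le_rpow_of_exponent_le hx (by linarith)).trans hle)
    (by
      intro ε hε
      have hC : ∀ᶠ x : ℝ in atTop, (Fintype.card (Pat N) + 1 : ℝ) ≤ x ^ (ε / 2) :=
        (tendsto_rpow_atTop (by linarith : 0 < ε / 2)).eventually_ge_atTop _
      filter_upwards [h (ε / 2) (by linarith), hC, eventually_ge_atTop (1 : ℝ)] with x h1 h2 h3
      by_contra hcon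
      push Not at hcon
      have h4 := count_patterns N x
      have h5 : ((∑ t : Pat N, Set.ncard {n : ℕ | (n : ℝ) ≤ x ∧
          FourConsecutive t.1.1 t.1.2.1 t.1.2.2 n} : ℕ) : ℝ) ≤
          Fintype.card (Pat N) * x ^ (1 - ε) := by
        push_cast
        calc _ ≤ ∑ _t : Pat N, x ^ (1 - ε) := Finset.sum_le_sum fun t _ => (hcon t).le
          _ = _ := by rw [Finset.sum_const, Finset.card_univ, nsmul_eq_mul]
      have h6 : x ^ (1 - ε / 2) ≤ Fintype.card (Pat N) * x ^ (1 - ε) :=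
        h1.trans (le_trans (by exact_mod_cast h4) h5)
      have h7 : x ^ (1 - ε / 2) = x ^ (ε / 2) * x ^ (1 - ε) := by
        rw [← Real.rpow_add (by linarith)]
        congr 1
        ring
      have h8 : 0 < x ^ (1 - ε) := Real.rpow_pos_of_pos (by linarith) _
      rw [h7] at h6
      have h9 := le_of_mul_le_mul_right h6 h8
      linarith)
  exact ⟨t.1.1, t.1.2.1, t.1.2.2, t.2.1, t.2.2.1, t.2.2.2, by
    have := t.1.2.2.isLt
    omega, ht⟩

/-- (1) For every `ε > 0` and all large `x`, at least `x ^ (1 - ε)` of the primes `p_k ≤ x` satisfy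
`p_{k+3} ≤ p_k + 4209616`.
(2) There are `0 < a < b < c ≤ 4209616` such that for every `ε > 0` and arbitrarily large `x` at least
`x ^ (1 - ε)` integers `n ≤ x` are such that `n`, `n + a`, `n + b`, `n + c` are four consecutive primes. -/
theorem result :
    (∀ ε : ℝ, 0 < ε → ∀ᶠ x : ℝ in atTop, x ^ (1 - ε) ≤ (Set.ncard {k : ℕ |
      (Nat.nth Nat.Prime k : ℝ) ≤ x ∧
      Nat.nth Nat.Prime (k + 3) ≤ Nat.nth Nat.Prime k + 4209616} : ℝ)) ∧
    ∃ a b c : ℕ, 0 < a ∧ a < b ∧ b < c ∧ c ≤ 4209616 ∧ ∀ ε : ℝ, 0 < ε → ∃ᶠ x : ℝ in atTop,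
      x ^ (1 - ε) ≤ (Set.ncard {n : ℕ | (n : ℝ) ≤ x ∧ FourConsecutive a b c n} : ℝ) :=
  ⟨fun ε hε => Pool.Agent.H358R5.gaps4 ε hε,
    one_pattern 4209616 fun ε hε => Pool.Agent.H358R5.gaps4 ε hε⟩

end Pool.Agent.Results.MP_3efbeb_nt.QuadruplesInBoundedIntervals
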